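import Pool.Agent.Helper19.CP.Spec

/-! CP (helper19), part `PER`: the permutation of the classes. -/

set_option autoImplicit false

namespace Pool.Agent.Helper6.CP.PER

open MvPolynomial Pool.Agent.Helper19.CP

lemma subst_subst {m : ℕ} (φ φ' : Matrix (Fin m) (Fin m) ℂ) (p : MvPolynomial (Fin m) ℂ) :
    subst φ' (subst φ p) = subst (φ * φ') p := by
  have key : (aeval (fun j => ∑ l, C (φ' j l) * X l : Fin m → MvPolynomial (Fin m) ℂ)).comp
      (aeval (fun j => ∑ l, C (φ j l) * X l : Fin m → MvPolynomial (Fin m) ℂ)) =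
      aeval (fun j => ∑ l, C ((φ * φ') j l) * X l : Fin m → MvPolynomial (Fin m) ℂ) := by
    apply MvPolynomial.algHom_ext
    intro j
    rw [AlgHom.comp_apply, aeval_X, aeval_X, map_sum]
    have h1 : ∀ l, aeval (fun j => ∑ l, C (φ' j l) * X l : Fin m → MvPolynomial (Fin m) ℂ)
        (C (φ j l) * X l : MvPolynomial (Fin m) ℂ) = ∑ l', C (φ j l * φ' l l') * X l' := by
      intro l
      rw [map_mul, aeval_X, MvPolynomial.algHom_C, MvPolynomial.algebraMap_eq, Finset.mul_sum]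
      refine Finset.sum_congr rfl fun l' _ => ?_
      rw [C_mul, mul_assoc]
    rw [Finset.sum_congr rfl fun l _ => h1 l, Finset.sum_comm]
    refine Finset.sum_congr rfl fun l' _ => ?_
    rw [Matrix.mul_apply, map_sum, Finset.sum_mul]
  exact DFunLike.congr_fun key p

lemma subst_C {m : ℕ} (φ : Matrix (Fin m) (Fin m) ℂ) (c : ℂ) :
    subst φ (C c : MvPolynomial (Fin m) ℂ) = C c := by
  unfold subst
  rw [MvPolynomial.algHom_C, MvPolynomial.algebraMap_eq]

lemma subst_mul {m : ℕ} (φ : Matrix (Fin m) (Fin m) ℂ) (p q : MvPolynomial (Fin m) ℂ) :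
    subst φ (p * q) = subst φ p * subst φ q := by
  unfold subst
  rw [map_mul]

lemma subst_one {m : ℕ} (p : MvPolynomial (Fin m) ℂ) :
    subst (1 : Matrix (Fin m) (Fin m) ℂ) p = p := by
  unfold subst
  have h : aeval (fun j => ∑ l, C ((1 : Matrix (Fin m) (Fin m) ℂ) j l) * X l :
      Fin m → MvPolynomial (Fin m) ℂ) = AlgHom.id ℂ (MvPolynomial (Fin m) ℂ) := by
    apply MvPolynomial.algHom_ext
    intro j
    rw [aeval_X, Finset.sum_eq_single j]
    · simp
    · intro l _ hl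
      rw [Matrix.one_apply_ne hl.symm]
      simp
    · intro h
      exact absurd (Finset.mem_univ _) h
  rw [h]
  rfl

lemma map_subst {m : ℕ} (τ : ℂ →+* ℂ) (φ : Matrix (Fin m) (Fin m) ℂ)
    (p : MvPolynomial (Fin m) ℂ) : map τ (subst φ p) = subst (φ.map τ) (map τ p) := by
  have h := MvPolynomial.map_bind₁ τ (fun j => ∑ l, C (φ j l) * X l :
    Fin m → MvPolynomial (Fin m) ℂ) p
  have h1 : subst φ p = bind₁ (fun j => ∑ l, C (φ j l) * X l) p := rfl
  have h2 : subst (φ.map τ) (map τ p) = bind₁ (fun j => ∑ l, C (φ.map τ j l) * X l) (map τ p) :=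
    rfl
  rw [h1, h, h2]
  congr 2
  funext j
  rw [map_sum]
  refine Finset.sum_congr rfl fun l _ => ?_
  rw [map_mul, map_C, map_X, Matrix.map_apply]

lemma equ_trans {n : ℕ} {K : Subfield ℂ} {G G' G'' : Tuple n} (h : Equ K G G')
    (h' : Equ K G' G'') : Equ K G G'' := by
  obtain ⟨c, φ, hc, hφ, hc0, hφ0, h⟩ := h
  obtain ⟨c', φ', hc', hφ', hc0', hφ0', h'⟩ := h'
  refine ⟨c' * c, φ * φ', K.mul_mem hc' hc, ?_, mul_ne_zero hc0' hc0, ?_, ?_⟩
  · intro i j
    rw [Matrix.mul_apply]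
    exact K.sum_mem fun l _ => K.mul_mem (hφ i l) (hφ' l j)
  · rw [Matrix.det_mul]
    exact mul_ne_zero hφ0 hφ0'
  · intro i
    rw [h' i, h i, subst_mul, subst_C, subst_subst, C_mul, mul_assoc]

lemma equ_symm {n : ℕ} {K : Subfield ℂ} {G G' : Tuple n} (h : Equ K G G') : Equ K G' G := by
  obtain ⟨c, φ, hc, hφ, hc0, hφ0, h⟩ := h
  have hinv : φ * φ⁻¹ = 1 := Matrix.mul_nonsing_inv _ (isUnit_iff_ne_zero.2 hφ0)
  refine ⟨c⁻¹, φ⁻¹, K.inv_mem hc, ?_, inv_ne_zero hc0, ?_, ?_⟩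
  · let φ₀ : Matrix (Fin (n + 1)) (Fin (n + 1)) K := fun i j => ⟨φ i j, hφ i j⟩
    have e1 : φ = φ₀.map K.subtype := by
      ext i j
      rfl
    have e2 : φ₀.det ≠ 0 := by
      intro h0
      apply hφ0
      rw [e1]
      have := RingHom.map_det K.subtype φ₀
      rw [h0, map_zero] at this
      exact this.symm
    have e3 : φ * (φ₀⁻¹).map K.subtype = 1 := by
      rw [e1, ← Matrix.map_mul, Matrix.mul_nonsing_inv _ (isUnit_iff_ne_zero.2 e2)]
      exact Matrix.map_one _ (map_zero _) (map_one _)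
    rw [Matrix.inv_eq_right_inv e3]
    intro i j
    exact (φ₀⁻¹ i j).2
  · intro h0
    have := congrArg Matrix.det hinv
    rw [Matrix.det_mul, h0, mul_zero, Matrix.det_one] at this
    exact zero_ne_one this
  · intro i
    rw [h i, subst_mul, subst_C, subst_subst, hinv, subst_one, ← mul_assoc, ← C_mul,
      inv_mul_cancel₀ hc0, C_1, one_mul]

lemma alg_stable {K : Subfield ℂ} {τ : ℂ ≃+* ℂ} (hτ : Fixes K τ) {x : ℂ} (hx : x ∈ Alg K) :
    τ x ∈ Alg K := by
  have hx' : IsAlgebraic K x := (mem_algebraicClosure_iff).1 hx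
  let τ' : ℂ →ₐ[K] ℂ := { (τ : ℂ →+* ℂ) with
    commutes' := fun r => hτ r.1 r.2 }
  exact (mem_algebraicClosure_iff).2 (hx'.algHom τ')

lemma equ_conj {n : ℕ} {K : Subfield ℂ} {τ : ℂ ≃+* ℂ} (hτ : Fixes K τ) {G G' : Tuple n}
    (h : Equ (Alg K) G G') : Equ (Alg K) (conj τ G) (conj τ G') := by
  obtain ⟨c, φ, hc, hφ, hc0, hφ0, h⟩ := h
  refine ⟨τ c, φ.map τ, alg_stable hτ hc, fun i j => alg_stable hτ (hφ i j), ?_, ?_, ?_⟩
  · simpa using hc0
  · have := RingHom.map_det (τ : ℂ →+* ℂ) φ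
    rw [RingHom.mapMatrix_apply] at this
    have h2 : (φ.map τ).det = (τ : ℂ →+* ℂ) φ.det := this.symm
    rw [h2]
    simpa using hφ0
  · intro i
    unfold conj
    rw [h i, map_mul, map_C, map_subst]
    rfl

lemma conj_of_over {n : ℕ} {K : Subfield ℂ} {τ : ℂ ≃+* ℂ} (hτ : Fixes K τ) {G : Tuple n}
    (hG : ∀ i, Over K (G i)) : conj τ G = G := by
  funext i
  unfold conj
  ext α
  rw [coeff_map]
  exact hτ _ (hG i α)

theorem main (hEXT : S_EXT) : S_PER := by
  intro n D m K F Q r L hQ hst hsys hfd hgal hr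
  have hE : ∀ σ : L ≃ₐ[K] L, ∃ τ : ℂ ≃+* ℂ, ∀ x : L, τ (x : ℂ) = (σ x : ℂ) :=
    fun σ => hEXT K L inferInstance σ
  choose E hE using hE
  have hfix : ∀ σ, Fixes K (E σ) := by
    intro σ x hx
    have h1 := hE σ (algebraMap K L ⟨x, hx⟩)
    rw [AlgEquiv.commutes] at h1
    exact h1
  have hπ : ∀ (σ : L ≃ₐ[K] L) (j : Fin m), ∃ j', Equ (Alg K) (r j') (conj (E σ) (r j)) :=
    fun σ j => hsys.surj _ (hst (E σ) (hfix σ) _ (hsys.mem j))
  choose π hπ using hπ
  refine ⟨E, π, hfix, hE, hπ, ?_, ?_⟩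
  · funext j
    apply hsys.inj
    have h1 := hπ 1 j
    have h2 : conj (E 1) (r j) = r j := by
      refine conj_of_over (K := L.toSubfield) ?_ (hr j)
      intro x hx
      have := hE 1 ⟨x, hx⟩
      exact this
    rw [h2] at h1
    exact h1
  · intro σ τ
    funext j
    apply hsys.inj
    have h1 := hπ (σ * τ) j
    have h2 : conj (E (σ * τ)) (r j) = conj (E σ) (conj (E τ) (r j)) := by
      funext i
      unfold conj
      ext α
      rw [coeff_map, coeff_map, coeff_map]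
      have hx := hr j i α
      have e1 := hE (σ * τ) ⟨(r j i).coeff α, hx⟩
      have e2 := hE τ ⟨(r j i).coeff α, hx⟩
      have e3 := hE σ (τ ⟨(r j i).coeff α, hx⟩)
      simp only [RingHom.coe_coe] at *
      rw [e1, e2, e3]
      rfl
    rw [h2] at h1
    have h3 := equ_conj (hfix σ) (hπ τ j)
    have h4 := hπ σ (π τ j)
    exact equ_trans h1 (equ_symm (equ_trans h4 h3))

end Pool.Agent.Helper6.CP.PER
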