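import Pool.Agent.Helper20.CP.Spec

/-! # CP: part CN2 -/

set_option autoImplicit false

open MeasureTheory ProbabilityTheory Filter Topology
open scoped ENNReal

namespace Pool.Agent.Helper6.CP.CN2

open Pool.Agent.Helper20.CP

open Classical in
lemma card_sum {X V : Type} [Fintype X] [Fintype V] (vt : X → V) :
    Fintype.card X = ∑ v, dg vt v := by
  have h := Finset.card_eq_sum_card_fiberwise (s := (Finset.univ : Finset X))
    (t := (Finset.univ : Finset V)) (f := vt) (fun x _ => by simp)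
  rw [Finset.card_univ] at h
  rw [h]
  rfl

open Classical in
lemma card_sum_win {X V : Type} [Fintype X] [Fintype V] (vt : X → V) (B : Finset V) :
    (Finset.univ.filter fun x => vt x ∈ B).card = ∑ v ∈ B, dg vt v := by
  have h := Finset.card_eq_sum_card_fiberwise (s := (Finset.univ.filter fun x : X => vt x ∈ B))
    (t := B) (f := vt) (fun x hx => by
      rw [Finset.mem_coe, Finset.mem_filter] at hx
      exact Finset.mem_coe.2 hx.2)
  rw [h]
  refine Finset.sum_congr rfl fun v hv => ?_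
  unfold dg
  congr 1
  ext x
  simp only [Finset.mem_filter, Finset.mem_univ, true_and]
  constructor
  · exact fun hx => hx.2
  · exact fun hx => ⟨by rw [hx]; exact hv, hx⟩

/-- eventual smallness in `K` -/
lemma evK (a κ A c2 ε : ℝ) (ha1 : a < 1) (hκ : 1 < κ) (hA : 0 < A) (hc2 : 0 < c2)
    (hε : 0 < ε) : ∀ᶠ K : ℝ in atTop, Real.exp 1 ≤ K ∧
      ((⌈K ^ κ⌉₊ : ℝ) + 1) * A * K ^ (-(2 * κ)) ≤ ε ∧
      Real.exp (-(c2 / (2 * A) * K ^ (κ * (1 - a)))) ≤ ε / 2 := by
  have h1 : Tendsto (fun K : ℝ => A * (K ^ (-κ) + 2 * K ^ (-(2 * κ)))) atTop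
      (𝓝 (A * (0 + 2 * 0))) :=
    ((tendsto_rpow_neg_atTop (by linarith)).add
      ((tendsto_rpow_neg_atTop (by linarith)).const_mul 2)).const_mul A
  rw [mul_zero, add_zero, mul_zero] at h1
  have h2 : Tendsto (fun K : ℝ => Real.exp (-(c2 / (2 * A) * K ^ (κ * (1 - a))))) atTop (𝓝 0) := by
    refine Real.tendsto_exp_neg_atTop_nhds_zero.comp ?_
    refine Tendsto.const_mul_atTop (by positivity) ?_
    exact tendsto_rpow_atTop (mul_pos (by linarith) (by linarith))
  filter_upwards [h1.eventually_le_const hε, h2.eventually_le_const (half_pos hε),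
    eventually_ge_atTop (Real.exp 1)] with K hK1 hK2 hK3
  have hK0 : 0 < K := lt_of_lt_of_le (Real.exp_pos 1) hK3
  refine ⟨hK3, ?_, hK2⟩
  refine le_trans ?_ hK1
  have h3 : (⌈K ^ κ⌉₊ : ℝ) ≤ K ^ κ + 1 := (Nat.ceil_lt_add_one (by positivity)).le
  have h4 : K ^ κ * K ^ (-(2 * κ)) = K ^ (-κ) := by
    rw [← Real.rpow_add hK0]; congr 1; ring
  have h5 : 0 < K ^ (-(2 * κ)) := by positivity
  calc ((⌈K ^ κ⌉₊ : ℝ) + 1) * A * K ^ (-(2 * κ)) ≤ ((K ^ κ + 1) + 1) * A * K ^ (-(2 * κ)) := by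
        gcongr
    _ = A * (K ^ κ * K ^ (-(2 * κ)) + 2 * K ^ (-(2 * κ))) := by ring
    _ = _ := by rw [h4]

/-- eventual smallness in `n` -/
lemma evn (α p A c ε : ℝ) (R : ℕ) (hα : 1 / 2 < α) (hp : 0 < p) (hA : 0 < A) (hc : 0 < c)
    (hε : 0 < ε) : ∀ᶠ n : ℕ in atTop, (1 : ℝ) ≤ n ∧ (2 * R + 1 : ℝ) < 2 * n ∧
      (2 * R + 1 : ℝ) ≤ c * n / 2 ∧ (R : ℝ) * (2 * R + 1) / (2 * n - 2 * R - 1) ≤ ε / 2 ∧
      (4 : ℝ) ≤ (n : ℝ) ^ α ∧
      (n : ℝ) ^ 2 * Real.exp (-(p * (n : ℝ) ^ (2 * α - 1) / (32 * A))) ≤ ε := by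
  have hn : Tendsto (fun n : ℕ => (n : ℝ)) atTop atTop := tendsto_natCast_atTop_atTop
  have h2 : ∀ᶠ n : ℕ in atTop, (2 * R + 1 : ℝ) < 2 * n :=
    (hn.const_mul_atTop (by norm_num : (0 : ℝ) < 2)).eventually_gt_atTop _
  have h3 : ∀ᶠ n : ℕ in atTop, (2 * R + 1 : ℝ) ≤ c / 2 * n :=
    (hn.const_mul_atTop (by positivity : (0 : ℝ) < c / 2)).eventually_ge_atTop _
  have h4 : Tendsto (fun n : ℕ => (R : ℝ) * (2 * R + 1) / (2 * n - 2 * R - 1)) atTop (𝓝 0) := by
    refine Tendsto.const_div_atTop ?_ _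
    have : Tendsto (fun n : ℕ => (2 : ℝ) * n + (-(2 * R) - 1)) atTop atTop :=
      tendsto_atTop_add_const_right _ _ (hn.const_mul_atTop (by norm_num : (0 : ℝ) < 2))
    refine this.congr fun n => ?_
    ring
  have h5 : ∀ᶠ n : ℕ in atTop, (4 : ℝ) ≤ (n : ℝ) ^ α :=
    ((tendsto_rpow_atTop (by linarith)).comp hn).eventually_ge_atTop _
  have hb : 0 < 2 * α - 1 := by linarith
  have h6 : Tendsto (fun n : ℕ => (n : ℝ) ^ 2 *
      Real.exp (-(p * (n : ℝ) ^ (2 * α - 1) / (32 * A)))) atTop (𝓝 0) := by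
    have h7 := tendsto_rpow_mul_exp_neg_mul_atTop_nhds_zero (2 / (2 * α - 1)) (p / (32 * A))
      (by positivity)
    have h8 := h7.comp ((tendsto_rpow_atTop hb).comp hn)
    refine h8.congr fun n => ?_
    simp only [Function.comp]
    congr 1
    · rw [← Real.rpow_mul (Nat.cast_nonneg n)]
      have : (2 * α - 1) * (2 / (2 * α - 1)) = 2 := by field_simp
      rw [this]
      norm_num
    · congr 1; ring
  filter_upwards [eventually_ge_atTop 1, h2, h3, h4.eventually_le_const (half_pos hε), h5,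
    h6.eventually_le_const hε] with n a1 a2 a3 a4 a5 a6
  refine ⟨by exact_mod_cast a1, a2, ?_, a4, a5, a6⟩
  linarith

theorem main (hRAY : S_RAY) (hHUB : S_HUB) (hLEV : S_LEV) : S_CN2 := by
  classical
  intro a α κ p A c2 ha0 ha1 hα hαa hκ haκ hp0 hp1 hA hc2 ε hε
  obtain ⟨K0, hK0⟩ := eventually_atTop.1 (evK a κ A c2 ε ha1 hκ hA hc2 hε)
  refine ⟨K0, fun K hK => ?_⟩
  obtain ⟨hKe, hKA, hKε⟩ := hK0 K hK
  refine ⟨hKA, ?_⟩
  have hKpos : 0 < K := lt_of_lt_of_le (Real.exp_pos 1) hKe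
  have hα1 : α ≤ 1 := by nlinarith
  obtain ⟨N1, hN1⟩ := hLEV α κ K (by linarith) hα1 hκ hKe
  set R : ℕ := ⌈K ^ κ⌉₊ with hR
  have hRK : K ^ κ ≤ R := Nat.le_ceil _
  set c : ℝ := c2 * K ^ (-(κ * a)) with hc
  have hc0 : 0 < c := by rw [hc]; positivity
  obtain ⟨N2, hN2⟩ := eventually_atTop.1 (evn α p A c ε R hα hp0 hA hc0 hε)
  refine ⟨max N1 N2, fun n hn X V _ _ _ vt hV hreg => ?_⟩
  obtain ⟨hy0, hy0', -, hyJ, -, -⟩ := hN1 n ((le_max_left _ _).trans hn)
  obtain ⟨hn1, hn2, hn3, hn4, hn5, hn6⟩ := hN2 n ((le_max_right _ _).trans hn)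
  have hn0 : (0 : ℝ) < n := by linarith
  -- number of half-edges
  have hXsum : (Fintype.card X : ℝ) = ∑ v, (dg vt v : ℝ) := by
    rw [card_sum vt]; push_cast; rfl
  have hXA : (Fintype.card X : ℝ) ≤ A * n := by
    rw [hXsum]; have := hreg.sum; rwa [hV] at this
  have hX2 : 2 * (n : ℝ) ≤ Fintype.card X := by
    rw [hXsum]
    calc 2 * (n : ℝ) = ∑ _v : V, (2 : ℝ) := by
          rw [Finset.sum_const, Finset.card_univ, hV, nsmul_eq_mul]; ring
      _ ≤ _ := Finset.sum_le_sum fun v _ => by exact_mod_cast hreg.two v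
  have hX0 : (0 : ℝ) < Fintype.card X := by linarith
  have hX0' : 0 < Fintype.card X := by exact_mod_cast hX0
  refine ⟨?_, ?_⟩
  · -- the ray
    intro nx hnx hvt e
    set y0 := yl α κ K n 0 with hy0d
    have hy0p : 0 < y0 := lt_of_lt_of_le hKpos hy0
    set B : Finset V := Win (dg vt) α κ K 0 with hB
    set W : Finset X := Finset.univ.filter fun x => vt x ∈ B with hW
    have hWmem : ∀ x, x ∈ W ↔ vt x ∈ B := fun x => by simp [hW]
    have hWcard : c * n ≤ W.card := by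
      have h1 : (W.card : ℝ) = ∑ v ∈ B, (dg vt v : ℝ) := by
        rw [hW, card_sum_win vt B]; push_cast; rfl
      have h2 : ∑ v ∈ B, (dg vt v : ℝ) ≥ B.card * y0 := by
        calc ∑ v ∈ B, (dg vt v : ℝ) ≥ ∑ _v ∈ B, y0 := by
              refine Finset.sum_le_sum fun v hv => ?_
              have h3 := (Finset.mem_filter.1 hv).2.1
              rw [hV] at h3
              exact h3.le
          _ = B.card * y0 := by rw [Finset.sum_const, nsmul_eq_mul]
      have h3 := hreg.win 0 (Nat.zero_le _)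
      rw [hV, ← hB, ← hy0d] at h3
      have h4 : y0 ^ (-(1 + a)) * y0 = y0 ^ (-a) := by
        rw [← Real.rpow_add_one hy0p.ne']; congr 1; ring
      have h5 : K ^ (-(κ * a)) ≤ y0 ^ (-a) := by
        have h6 : (K ^ κ) ^ (-a) ≤ y0 ^ (-a) := Real.rpow_le_rpow_of_nonpos hy0p hy0' (by linarith)
        rw [← Real.rpow_mul hKpos.le] at h6
        rw [show -(κ * a) = κ * -a by ring]
        exact h6
      calc c * n = c2 * n * K ^ (-(κ * a)) := by rw [hc]; ring
        _ ≤ c2 * n * y0 ^ (-a) := by gcongr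
        _ = (c2 * n * y0 ^ (-(1 + a))) * y0 := by rw [← h4]; ring
        _ ≤ B.card * y0 := by gcongr
        _ ≤ W.card := by rw [h1]; exact h2
    have hRX : 2 * R + 1 < Fintype.card X := by
      have : (2 * R + 1 : ℝ) < Fintype.card X := lt_of_lt_of_le hn2 hX2
      exact_mod_cast this
    have hRW : 2 * R + 1 ≤ W.card := by
      have h1 : 0 ≤ c * n / 2 := by positivity
      have : (2 * R + 1 : ℝ) ≤ W.card := by linarith
      exact_mod_cast this
    have hray := hRAY X nx hnx W (fun x => by rw [hWmem, hWmem, hvt]) e R hRX hRW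
    have hev : (fun σ : Equiv.Perm X => ind (∀ i, 1 ≤ i → i ≤ R → vt (ray nx σ e i) ∉ B)) =
        fun σ : Equiv.Perm X => ind (∀ i, 1 ≤ i → i ≤ R → ray nx σ e i ∉ W) := by
      funext σ
      simp only [hWmem]
    rw [hev]
    refine hray.trans (ENNReal.ofReal_le_ofReal ?_)
    have hWX : (W.card : ℝ) ≤ Fintype.card X := by
      exact_mod_cast (Finset.card_le_univ W)
    set z : ℝ := ((W.card : ℝ) - 2 * R - 1) / Fintype.card X with hz
    have hz1 : z ≤ 1 := by
      rw [hz, div_le_one hX0]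
      have : (0 : ℝ) ≤ R := Nat.cast_nonneg R
      linarith
    have hzq : c / (2 * A) ≤ z := by
      have hnum : c * n / 2 ≤ (W.card : ℝ) - 2 * R - 1 := by linarith
      calc c / (2 * A) = (c * n / 2) / (A * n) := by field_simp
        _ ≤ ((W.card : ℝ) - 2 * R - 1) / (A * n) := by gcongr
        _ ≤ z := by
            rw [hz]
            have h0 : 0 ≤ (W.card : ℝ) - 2 * R - 1 := le_trans (by positivity) hnum
            exact div_le_div_of_nonneg_left h0 hX0 hXA
    have hpow : (1 - z) ^ R ≤ ε / 2 := by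
      have h1 : 1 - z ≤ Real.exp (-(c / (2 * A))) := by
        have h2 := Real.add_one_le_exp (-z)
        have h3 : Real.exp (-z) ≤ Real.exp (-(c / (2 * A))) := Real.exp_le_exp.2 (by linarith)
        linarith
      calc (1 - z) ^ R ≤ (Real.exp (-(c / (2 * A)))) ^ R := pow_le_pow_left₀ (by linarith) h1 R
        _ = Real.exp (-(c / (2 * A) * R)) := by
            rw [← Real.exp_nat_mul]; congr 1; ring
        _ ≤ Real.exp (-(c2 / (2 * A) * K ^ (κ * (1 - a)))) := by
            apply Real.exp_le_exp.2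
            have h4 : K ^ (-(κ * a)) * K ^ κ = K ^ (κ * (1 - a)) := by
              rw [← Real.rpow_add hKpos]; congr 1; ring
            have h5 : c2 / (2 * A) * K ^ (κ * (1 - a)) = c / (2 * A) * K ^ κ := by
              rw [← h4, hc]; ring
            rw [h5]
            have : c / (2 * A) * K ^ κ ≤ c / (2 * A) * R := by gcongr
            linarith
        _ ≤ ε / 2 := hKε
    have hsec : (R : ℝ) * (2 * R + 1) / ((Fintype.card X : ℝ) - 2 * R - 1) ≤ ε / 2 := by
      refine le_trans ?_ hn4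
      apply div_le_div_of_nonneg_left (by positivity) (by linarith) (by linarith)
    linarith
  · -- the top vertices
    intro ρ _ Ch hCh hpCh
    set J := Jn α κ K n with hJ
    set m : ℕ := ⌊(n : ℝ) ^ α / 2⌋₊ with hm
    have hm1 : (m : ℝ) ≤ (n : ℝ) ^ α / 2 := Nat.floor_le (by positivity)
    have hm2 : (n : ℝ) ^ α / 4 ≤ m := by
      have := Nat.lt_floor_add_one ((n : ℝ) ^ α / 2)
      rw [← hm] at this
      linarith
    have hhub := hHUB X V vt ρ Ch hCh p hp0.le hp1 hpCh (Win (dg vt) α κ K J) m (fun v hv => by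
      have h3 := (Finset.mem_filter.1 hv).2.1
      rw [hV, hyJ] at h3
      have h4 : (2 * m : ℝ) < dg vt v := by linarith
      exact_mod_cast h4.le) hX0'
    refine hhub.trans (ENNReal.ofReal_le_ofReal ?_)
    refine le_trans ?_ hn6
    have hcard : ((Win (dg vt) α κ K J).card : ℝ) ≤ n := by
      rw [← hV]; exact_mod_cast Finset.card_le_univ _
    have hexp : p * (n : ℝ) ^ (2 * α - 1) / (32 * A) ≤ p * m ^ 2 / (2 * Fintype.card X) := by
      have h1 : (n : ℝ) ^ (2 * α - 1) = ((n : ℝ) ^ α) ^ 2 / n := by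
        rw [Real.rpow_sub_one hn0.ne', ← Real.rpow_natCast ((n : ℝ) ^ α) 2,
          ← Real.rpow_mul hn0.le]
        congr 2
        push_cast; ring
      have h2 : ((n : ℝ) ^ α) ^ 2 / 16 ≤ (m : ℝ) ^ 2 := by
        have h3 : 0 ≤ (n : ℝ) ^ α := by positivity
        nlinarith
      calc p * (n : ℝ) ^ (2 * α - 1) / (32 * A) = p * (((n : ℝ) ^ α) ^ 2 / 16) / (2 * (A * n)) := by
            rw [h1]; field_simp; ring
        _ ≤ p * m ^ 2 / (2 * (A * n)) := by gcongr
        _ ≤ p * m ^ 2 / (2 * Fintype.card X) := by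
            apply div_le_div_of_nonneg_left (by positivity) (by positivity)
            linarith
    calc ((Win (dg vt) α κ K J).card : ℝ) ^ 2 * Real.exp (-(p * m ^ 2 / (2 * Fintype.card X)))
        ≤ (n : ℝ) ^ 2 * Real.exp (-(p * (n : ℝ) ^ (2 * α - 1) / (32 * A))) := by
          gcongr

end Pool.Agent.Helper6.CP.CN2
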