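import Pool.Agent.Helper20.CP.Spec

/-! # CP: part M3 -/

set_option autoImplicit false

open MeasureTheory ProbabilityTheory Filter Topology
open scoped ENNReal

namespace Pool.Agent.Helper6.CP.M3

open Pool.Agent.Helper20.CP

theorem main : S_M3 := by
  classical
  intro X _ _ ρ _ Ch hCh p hp0 hp1 hp σ hσ A T hAT
  set B : Finset X := A.filter fun x => σ x ∈ T with hB
  set I : Finset (Sym2 X) := B.image fun x => s(x, σ x) with hI
  have hcard : I.card = B.card := by
    rw [hI]
    refine Finset.card_image_of_injOn ?_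
    intro x hx y hy hxy
    rw [Finset.mem_coe, hB, Finset.mem_filter] at hx hy
    simp only [Sym2.eq_iff] at hxy
    rcases hxy with ⟨h1, -⟩ | ⟨h1, -⟩
    · exact h1
    · exact absurd hx.1 (by rw [h1]; exact fun h => Finset.disjoint_left.1 hAT h hy.2)
  have hCc : ρ Chᶜ ≤ ENNReal.ofReal (1 - p) := by
    rw [prob_compl_eq_one_sub hCh, ENNReal.ofReal_sub _ hp0, ENNReal.ofReal_one]
    exact tsub_le_tsub_left hp 1
  have hsub : {w : Sym2 X → ℝ × ℝ | ∀ x ∈ A, σ x ∈ T → w s(x, σ x) ∉ Ch} ⊆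
      Set.pi Set.univ (fun e => if e ∈ I then Chᶜ else Set.univ) := by
    intro w hw e _
    by_cases he : e ∈ I
    · simp only [if_pos he]
      obtain ⟨x, hx, rfl⟩ := Finset.mem_image.1 he
      rw [hB, Finset.mem_filter] at hx
      exact hw x hx.1 hx.2
    · simp only [if_neg he]; trivial
  calc WM ρ {w : Sym2 X → ℝ × ℝ | ∀ x ∈ A, σ x ∈ T → w s(x, σ x) ∉ Ch}
      ≤ WM ρ (Set.pi Set.univ (fun e => if e ∈ I then Chᶜ else Set.univ)) := measure_mono hsub
    _ = ∏ e, ρ (if e ∈ I then Chᶜ else Set.univ) := by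
        unfold WM; rw [Measure.pi_pi]
    _ = ∏ e, (if e ∈ I then ρ Chᶜ else 1) := by
        refine Finset.prod_congr rfl fun e _ => ?_
        split_ifs <;> simp
    _ = (ρ Chᶜ) ^ I.card := by
        rw [Finset.prod_ite_mem, Finset.univ_inter, Finset.prod_const]
    _ ≤ (ENNReal.ofReal (1 - p)) ^ I.card := by gcongr
    _ = ENNReal.ofReal ((1 - p) ^ (A.filter fun x => σ x ∈ T).card) := by
        rw [hcard, ENNReal.ofReal_pow (by linarith)]

end Pool.Agent.Helper6.CP.M3
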