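import Pool.Agent.Helper20.CP.Spec

/-! # CP: part MARK -/

set_option autoImplicit false

open MeasureTheory ProbabilityTheory Filter Topology
open scoped ENNReal

namespace Pool.Agent.Helper6.CP.MARK

open Pool.Agent.Helper20.CP

theorem main : S_MARK := by
  classical
  intro Ω V _ _ μ F a ha
  set G : V → Set Ω := fun v => toMeasurable μ (F v) with hG
  have hGm : ∀ v, MeasurableSet (G v) := fun v => measurableSet_toMeasurable _ _
  have hGF : ∀ v, μ (G v) = μ (F v) := fun v => measure_toMeasurable _
  set f : Ω → ℝ≥0∞ := fun ω => ∑ v, (G v).indicator (fun _ => (1 : ℝ≥0∞)) ω with hf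
  have hsub : {ω | a < ((Finset.univ.filter fun v => ω ∈ F v).card : ℝ)} ⊆
      {ω | ENNReal.ofReal a ≤ f ω} := by
    intro ω hω
    have h1 : a < ((Finset.univ.filter fun v => ω ∈ F v).card : ℝ) := hω
    have h2 : ((Finset.univ.filter fun v => ω ∈ F v).card : ℝ≥0∞) ≤ f ω := by
      rw [Finset.card_eq_sum_ones, Nat.cast_sum, hf]
      simp only
      rw [Finset.sum_filter]
      refine Finset.sum_le_sum fun v _ => ?_
      by_cases hv : ω ∈ F v
      · rw [if_pos hv, Set.indicator_of_mem (subset_toMeasurable _ _ hv)]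
        simp
      · rw [if_neg hv]; exact zero_le
    show ENNReal.ofReal a ≤ f ω
    refine le_trans ?_ h2
    rw [← ENNReal.ofReal_natCast]
    exact ENNReal.ofReal_le_ofReal h1.le
  have hfm : Measurable f := Finset.measurable_sum _ fun v _ => measurable_const.indicator (hGm v)
  have hint : ∫⁻ ω, f ω ∂μ = ∑ v, μ (F v) := by
    rw [hf, lintegral_finsetSum _ fun v _ => measurable_const.indicator (hGm v)]
    refine Finset.sum_congr rfl fun v _ => ?_
    rw [lintegral_indicator (hGm v)]
    simp [hGF]
  have h0 : ENNReal.ofReal a ≠ 0 := by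
    rw [Ne, ENNReal.ofReal_eq_zero]; linarith
  rw [ENNReal.le_div_iff_mul_le (Or.inl h0) (Or.inl ENNReal.ofReal_ne_top), mul_comm, ← hint]
  refine le_trans ?_ (mul_meas_ge_le_lintegral hfm (ENNReal.ofReal a))
  gcongr

end Pool.Agent.Helper6.CP.MARK
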